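import Pool.Agent.TH956.Dilated

set_option autoImplicit false

/-!
# Dilated polynomial patterns are partition regular over the integers

For all integer polynomials `Q ≠ 0` and `P_1, …, P_k` without constant term and every colouring of
the nonzero integers with finitely many colours there are integers `x` and `d ≠ 0` such that
`Q(d)(x + P_1(d)), …, Q(d)(x + P_k(d))` are nonzero and of the same colour. No hypothesis on the
leading coefficient of `Q` is made, and nothing is assumed.

The proof uses a tree version of the polynomial van der Waerden theorem along finite sums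
(`Pool.Agent.TH956.Tree`): the possible base points for two index sets which agree up to `m` differ
by a combination of the generators after `m`. It is applied twice. The generators of the second
application are chosen such that the conditions `Q(d) ∣ Y` for all its possible outcomes can be
met by one translation, by the Chinese remainder theorem (`Pool.Agent.TH956.Descent`,
`Pool.Agent.TH956.Dilated`).
-/

namespace Pool.Agent.Results.MP_5597c5_co.DilatedPatterns

open Polynomial

theorem aux {ι : Type} [Fintype ι] (Q : ℤ[X]) (hQ : Q ≠ 0) (hQ0 : Q.eval 0 = 0) (P : ι → ℤ[X])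
    (hP : ∀ i, (P i).eval 0 = 0) (κ : Type) [Finite κ] [Nonempty κ] (c : ℤ → κ) :
    ∃ x d : ℤ, d ≠ 0 ∧ Q.eval d ≠ 0 ∧ ∃ a : κ, ∀ i, c (Q.eval d * (x + (P i).eval d)) = a := by
  obtain ⟨U, hU1, hU2⟩ := exists_eq_pow_rootMultiplicity_mul_and_not_dvd Q hQ 0
  rw [C_0, sub_zero] at hU1 hU2
  have hU0 : U.eval 0 ≠ 0 := by
    intro h
    rw [X_dvd_iff, coeff_zero_eq_eval_zero] at hU2
    exact hU2 h
  have hl : 1 ≤ Q.rootMultiplicity 0 := by
    rw [Nat.one_le_iff_ne_zero, Ne, rootMultiplicity_eq_zero_iff]
    intro h
    exact hQ (h hQ0)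
  set l := Q.rootMultiplicity 0
  obtain ⟨Y, d, hd, hQd, ⟨x, hx⟩, a, ha⟩ := TH956.core U l hl hU0 (fun i => (P i).divX) κ c
  rw [← hU1] at hQd hx ha
  refine ⟨x, d, hd, hQd, a, fun i => ?_⟩
  rw [← ha i, hx]
  congr 1
  have h1 : (P i).eval d = d * (P i).divX.eval d := by
    have h2 := divX_mul_X_add (P i)
    rw [coeff_zero_eq_eval_zero, hP i, C_0, add_zero] at h2
    conv_lhs => rw [← h2]
    rw [eval_mul, eval_X, mul_comm]
  rw [h1]
  ring

/-- For all `k`, all polynomials `Q ≠ 0`, `P_1, …, P_k` with integer coefficients and with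
`Q(0) = 0` and `P_i(0) = 0`, and every colouring of the nonzero integers with finitely many colours,
there are integers `x` and `d ≠ 0` such that all the elements `Q(d)(x + P_i(d))` are nonzero and
have the same colour. -/
theorem result (k : ℕ) (Q : ℤ[X]) (hQ : Q ≠ 0) (hQ0 : Q.eval 0 = 0) (P : Fin k → ℤ[X])
    (hP : ∀ i, (P i).eval 0 = 0) (κ : Type) [Finite κ] (c : {z : ℤ // z ≠ 0} → κ) :
    ∃ x d : ℤ, d ≠ 0 ∧ ∃ a : κ, ∀ i, ∃ h : Q.eval d * (x + (P i).eval d) ≠ 0,
      c ⟨Q.eval d * (x + (P i).eval d), h⟩ = a := by
  classical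
  obtain ⟨x, d, hd, hQd, a, ha⟩ := aux Q hQ hQ0
    (fun i : Option (Option (Fin k)) => match i with
      | none => 0
      | some none => X
      | some (some i) => P i)
    (fun i => by
      rcases i with _ | _ | i
      · simp
      · simp
      · exact hP i) (Option κ)
    (fun z => if h : z ≠ 0 then some (c ⟨z, h⟩) else none)
  have h0 := ha none
  have h1 := ha (some none)
  simp only [eval_zero, add_zero, eval_X] at h0 h1
  rcases a with _ | a
  · exfalso
    have h2 : Q.eval d * x = 0 := by
      by_contra h2
      rw [dif_pos h2] at h0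
      cases h0
    have h3 : Q.eval d * (x + d) = 0 := by
      by_contra h3
      rw [dif_pos h3] at h1
      cases h1
    have h4 := (mul_eq_zero.1 h2).resolve_left hQd
    have h5 := (mul_eq_zero.1 h3).resolve_left hQd
    apply hd
    rw [h4, zero_add] at h5
    exact h5
  · refine ⟨x, d, hd, a, fun i => ?_⟩
    have h2 := ha (some (some i))
    simp only at h2
    by_cases h3 : Q.eval d * (x + (P i).eval d) ≠ 0
    · rw [dif_pos h3] at h2
      exact ⟨h3, Option.some_injective _ h2⟩
    · rw [dif_neg h3] at h2
      cases h2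

end Pool.Agent.Results.MP_5597c5_co.DilatedPatterns
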